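import Pool.Agent.H19.KN.Targets

/-! Row APW of the board `kna_modules` (project KEW, MP_7b949a_ag). -/

set_option autoImplicit false

namespace Pool.Agent.H67.KN

open Pool.Agent.H62.MK Pool.Agent.H19.KN Polynomial Function

universe u

theorem pf_APW (h : T_GRP.{u}) : T_APW.{u} := by
  classical
  intro F _ π q E ι _ R hR hA n hn g
  rcases isEmpty_or_nonempty ι with he | he
  · exact ⟨1, fun i => (he.false i).elim⟩
  have hk : ∀ i, ∃ k : ℕ, π ^ k * ((g i)⁻¹ : Fˣ) ∈ R i := fun i => (hR i).frac _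
  choose k hk using hk
  obtain ⟨K, hK⟩ : ∃ K : ℕ, ∀ i, k i ≤ K :=
    ⟨Finset.univ.sup k, fun i => Finset.le_sup (Finset.mem_univ i)⟩
  have hK' : ∀ i, π ^ K * ((g i)⁻¹ : Fˣ) ∈ R i := by
    intro i
    have e : π ^ K * (((g i)⁻¹ : Fˣ) : F) = π ^ (K - k i) * (π ^ k i * ((g i)⁻¹ : Fˣ)) := by
      rw [← mul_assoc, ← pow_add, Nat.sub_add_cancel (hK i)]
    rw [e]
    exact Subring.mul_mem _ (Subring.pow_mem _ (hR i).pi_mem _) (hk i)
  obtain ⟨g', hg'⟩ := hA (fun i => (g i : F)) (n + K)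
  choose c hc hgc using hg'
  have hrat : ∀ i, g' * ((g i)⁻¹ : Fˣ) = 1 + π ^ n * (π ^ K * ((g i)⁻¹ : Fˣ) * c i) := by
    intro i
    rw [hgc i, add_mul, Units.mul_inv, pow_add]
    ring
  have hmem : ∀ i, π ^ K * (((g i)⁻¹ : Fˣ) : F) * c i ∈ R i := fun i =>
    Subring.mul_mem _ (hK' i) (hc i)
  have hne : g' ≠ 0 := by
    obtain ⟨i⟩ := he
    obtain ⟨-, -, -, -, hne, -⟩ := h F (R i) π q E (hR i).toGood0 n hn
    intro h0
    have h1 := hrat i
    rw [h0, zero_mul] at h1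
    exact hne _ (hmem i) h1.symm
  refine ⟨Units.mk0 g' hne, fun i => ⟨_, hmem i, ?_⟩⟩
  rw [div_eq_mul_inv, Units.val_mul, Units.val_mk0]
  exact hrat i

end Pool.Agent.H67.KN
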