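import Pool.Agent.H19.KN.Targets

/-! Row GRV of the board `kna_modules` (project KEW, MP_7b949a_ag). -/

set_option autoImplicit false

namespace Pool.Agent.H67.KN

open Pool.Agent.H62.MK Pool.Agent.H19.KN Polynomial Function

universe u

/-- A valuation ring contains the integral closure of its subrings. -/
theorem icl_le {F : Type u} [Field F] (V : ValuationSubring F) (R : Subring F)
    (hR : ∀ x ∈ R, x ∈ V) (a : F) (ha : a ∈ icl R F) : a ∈ V := by
  have h1 : IsIntegral R a := ha
  obtain ⟨p, hp, hpa⟩ := h1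
  have h2 : IsIntegral V a := by
    refine ⟨p.map (Subring.inclusion (S := R) (T := V.toSubring) hR), hp.map _, ?_⟩
    rw [eval₂_map]
    exact hpa
  obtain ⟨y, hy⟩ := (IsIntegrallyClosed.isIntegral_iff (R := V) (K := F)).1 h2
  rw [← hy]
  exact y.2

/-- Units with residue one. -/
theorem ord_ures {F : Type u} [Field F] (V : ValuationSubring F) [IsDiscreteValuationRing V]
    (u : Fˣ) (t : V) (ht : t ∈ IsLocalRing.maximalIdeal V) (hu : (u : F) = 1 + t) :
    (valDV V).ord u = 0 ∧ (valDV V).ures u = 1 := by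
  have h1 : algebraMap V F (1 + t) ∈ (valDV V).ring := placeDV_mem _ _ _ _ _
  have hu' : (u : F) = algebraMap V F (1 + t) := by rw [hu]; rfl
  have h2 : (u : F) ∈ (valDV V).ring := by rw [hu']; exact h1
  have h3 : (valDV V).res ⟨(u : F), h2⟩ = 1 := by
    have e : (⟨(u : F), h2⟩ : (valDV V).ring) = ⟨algebraMap V F (1 + t), h1⟩ := Subtype.ext hu'
    rw [e]
    have e2 : (valDV V).res ⟨algebraMap V F (1 + t), h1⟩ = IsLocalRing.residue V (1 + t) :=
      placeDV_res _ _ _ _ _ _
    rw [e2, map_add, map_one, (IsLocalRing.residue_eq_zero_iff t).2 ht, add_zero]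
  have h4 : (valDV V).ord u = 0 := by
    have h5 := ((valDV V).mem_ring u).1 h2
    have h6 : ¬ 0 < (valDV V).ord u := by
      intro h7
      rw [← (valDV V).res_eq_zero u h2, h3] at h7
      exact one_ne_zero h7
    omega
  refine ⟨h4, ?_⟩
  rw [(valDV V).ures_of_ord_eq_zero u h4]
  apply Units.ext
  exact h3

theorem pf_GRV (h : T_TCU.{u}) : T_GRV.{u} := by
  intro A O F _ _ _ _ _ f π q n hn hπ m
  have key : ∀ x ∈ USub q (algebraMap O F (f π)) n (icl ((algebraMap O F).comp f).range F) (m + 1),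
      ∀ V : Dom O F, ∃ y, V.residue m x = q • y := by
    intro x hx V
    have := V.dvr
    refine AddSubgroup.closure_induction (p := fun x _ => ∃ y, V.residue m x = q • y)
      ?_ ?_ ?_ ?_ hx
    · rintro z (⟨x, rfl⟩ | ⟨u, ⟨a, ha, hu⟩, y, rfl⟩)
      · exact ⟨V.residue m x, map_nsmul _ _ _⟩
      · have haV : a ∈ V.val := icl_le V.val _ (by
          rintro w ⟨b, rfl⟩
          exact V.mem (f b)) a ha
        have hpi : algebraMap O F (f π) ∈ V.val := V.mem (f π)
        have ht : (⟨algebraMap O F (f π), hpi⟩ : V.val) ^ n * ⟨a, haV⟩ ∈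
            IsLocalRing.maximalIdeal V.val :=
          Ideal.mul_mem_right _ _ (Ideal.pow_mem_of_mem _ (V.dom _ hπ) n hn)
        obtain ⟨h1, h2⟩ := ord_ures V.val u _ ht hu
        have h3 : tame (valDV V.val) m (cup u y) = 0 := by
          obtain ⟨h4, h5⟩ := h F _ (valDV V.val) u h1
          cases m with
          | zero => exact h4 y
          | succ m =>
            rw [h5 m y, h2, cup_one, neg_zero]
        refine ⟨0, ?_⟩
        rw [smul_zero]
        show normOf V.resMap m (tame (valDV V.val) m (cup u y)) = 0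
        rw [h3, map_zero]
    · exact ⟨0, by rw [map_zero, smul_zero]⟩
    · rintro x y _ _ ⟨x', hx'⟩ ⟨y', hy'⟩
      exact ⟨x' + y', by rw [map_add, hx', hy', smul_add]⟩
    · rintro x _ ⟨x', hx'⟩
      exact ⟨-x', by rw [map_neg, hx', smul_neg]⟩
  intro x hx
  refine finsum_induction (fun φ : MilnorK F (m + 1) →+
    MilnorK (IsLocalRing.ResidueField O) m => ∃ y, φ x = q • y) ?_ ?_ ?_
  · exact ⟨0, by rw [AddMonoidHom.zero_apply, smul_zero]⟩
  · rintro φ ψ ⟨a, ha⟩ ⟨b, hb⟩
    exact ⟨a + b, by rw [AddMonoidHom.add_apply, ha, hb, smul_add]⟩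
  · intro V
    exact key x hx V

end Pool.Agent.H67.KN
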