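import Pool.Agent.H19.KN.Targets

/-! Row SMQ of the board `kna_modules` (project KEW, MP_7b949a_ag). -/

set_option autoImplicit false

namespace Pool.Agent.H67.KN

open Pool.Agent.H62.MK Pool.Agent.H19.KN Polynomial Function

universe u

theorem pf_SMQ (h : T_GOODE.{u}) (h2 : T_GRP.{u}) : T_SMQ.{u} := by
  intro K _ O π q E hO k v hv n M hn hnM f hf
  have hfin : FiniteDimensional K (AdjoinRoot v.1) := v.2.1.finite_adjoinRoot
  have halg : Algebra.IsAlgebraic K (AdjoinRoot v.1) := Algebra.IsAlgebraic.of_finite _ _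
  obtain ⟨hG, -, hin, -, -⟩ := h K O π q E hO (AdjoinRoot v.1) halg
  obtain ⟨-, -, -, -, hne, -⟩ := h2 (AdjoinRoot v.1) (icl O (AdjoinRoot v.1))
    (algebraMap K (AdjoinRoot v.1) π) q E hG.toGood0 n hn
  -- the value
  have hval : AdjoinRoot.mk v.1 (f.comp (C (π ^ k) * X)) ∈ icl O (AdjoinRoot v.1) := by
    have e : AdjoinRoot.mk v.1 (f.comp (C (π ^ k) * X)) =
        ∑ i ∈ Finset.range (f.natDegree + 1), algebraMap K (AdjoinRoot v.1) (f.coeff i) *
          (algebraMap K (AdjoinRoot v.1) π ^ k * AdjoinRoot.root v.1) ^ i := by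
      have e1 : Polynomial.aeval (AdjoinRoot.root v.1) (C (π ^ k) * X) =
          algebraMap K (AdjoinRoot v.1) π ^ k * AdjoinRoot.root v.1 := by
        rw [map_mul, Polynomial.aeval_C, Polynomial.aeval_X, map_pow]
      rw [← AdjoinRoot.aeval_eq, Polynomial.aeval_comp, e1, Polynomial.aeval_eq_sum_range]
      exact Finset.sum_congr rfl fun i _ => Algebra.smul_def _ _
    rw [e]
    refine Subring.sum_mem _ fun i _ => Subring.mul_mem _ (hin _ (hf i)) (Subring.pow_mem _ hv i)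
  have hmem : algebraMap K (AdjoinRoot v.1) π ^ (M - n) *
      AdjoinRoot.mk v.1 (f.comp (C (π ^ k) * X)) ∈ icl O (AdjoinRoot v.1) :=
    Subring.mul_mem _ (Subring.pow_mem _ hG.pi_mem _) hval
  have hQ : AdjoinRoot.mk v.1 (QQ π M k f) = 1 + algebraMap K (AdjoinRoot v.1) π ^ n *
      (algebraMap K (AdjoinRoot v.1) π ^ (M - n) *
        AdjoinRoot.mk v.1 (f.comp (C (π ^ k) * X))) := by
    rw [← mul_assoc, ← pow_add, Nat.add_sub_cancel' hnM, QQ, map_add, map_one, map_mul,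
      AdjoinRoot.mk_C]
    rw [map_pow]
    rfl
  have hne' : AdjoinRoot.mk v.1 (QQ π M k f) ≠ 0 := by
    rw [hQ]
    exact hne _ hmem
  exact ⟨Units.mk0 _ hne', ⟨_, hmem, hQ⟩, rfl⟩

end Pool.Agent.H67.KN
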