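import Pool.Agent.H19.KN.Targets

/-! Row SLOT of the board `kna_modules` (project KEW, MP_7b949a_ag). -/

set_option autoImplicit false

namespace Pool.Agent.H67.KN

open Pool.Agent.H62.MK Pool.Agent.H19.KN Polynomial Function

universe u

theorem sym_eq_cup_tail {F : Type u} [Field F] {m : ℕ} (a : Fin (m + 1) → Fˣ) :
    sym a = cup (a 0) (sym fun j => a j.succ) := by
  rw [cup_sym]
  congr 1
  funext k
  refine Fin.cases ?_ (fun j => ?_) k <;> simp

theorem pf_SLOT : T_SLOT.{u} := by
  intro F _ m
  induction m with
  | zero =>
    intro a i
    left
    have hi : i = 0 := by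
      apply Fin.ext
      have h := i.2
      show (i : ℕ) = 0
      omega
    subst hi
    exact sym_eq_cup_tail a
  | succ m ih =>
    intro a i
    refine Fin.cases ?_ (fun j => ?_) i
    · left
      exact sym_eq_cup_tail a
    · have h1 := ih (fun k => a k.succ) j
      have h2 : cup (a 0) (sym fun k => a (j.succAbove k).succ) =
          sym fun k => a (j.succ.succAbove k) := by
        rw [cup_sym]
        congr 1
        funext k
        refine Fin.cases ?_ (fun l => ?_) k
        · simp
        · simp [Fin.succ_succAbove_succ]
      rw [sym_eq_cup_tail a]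
      rcases h1 with h1 | h1
      · right
        rw [h1, cup_anticomm, h2]
      · left
        rw [h1, map_neg, cup_anticomm, neg_neg, h2]

end Pool.Agent.H67.KN
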